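import Pool.Agent.H95.Qin

set_option autoImplicit false

open Pool.Agent.H95.Qin Quaternion

theorem Pool.Agent.Results.MP_3b44a3_an.NotInner.result :
    ∃ a : ℕ → ℍ, Summable (fun n => ‖a n‖ ^ 2) ∧ Summable (fun n => ‖a n‖) ∧ IsInner (sym a) ∧ ¬IsInner a :=
  main
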